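import Pool.Agent.V1132.KEC5

/-!
# `κ`-existentially closed groups with few automorphisms
-/

set_option autoImplicit false

open Cardinal

namespace Pool.Agent.Results.MP_cb6149_al.FewAutomorphisms

open Pool.Agent.V1132.KEC

universe u

/-- **Theorem.** For every regular cardinal `κ` and every `μ ≥ κ` there is a `κ`-existentially
closed group `G` of cardinality `λ = 2 ^ μ > κ` with `|Aut G| = λ < 2 ^ λ`. -/
theorem result (κ μ : Cardinal.{u}) (hκ : κ.IsRegular) (hμ : κ ≤ μ) :
    ∃ (G : Type u) (_ : Group G), IsExistentiallyClosed κ G ∧ #G = 2 ^ μ ∧ κ < #G ∧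
      #(MulAut G) = #G ∧ #(MulAut G) < 2 ^ #G :=
  main hκ hμ

end Pool.Agent.Results.MP_cb6149_al.FewAutomorphisms
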